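import Mathlib
import Pool.Agent.Run7.h757.MW.Stm3

/-!
# Piece LAT of project MW (helper757): lattice points in the dilated body
-/

open Finset MeasureTheory Filter

namespace Pool.Agent.Run7.h544.MW

open Pool.Agent.Run7.h757.MW

noncomputable section

variable {d : ℕ}

/-- the scaling factors -/
def cc (k : ℕ) (lam : Fin d → ℝ) (i : Fin d) : ℝ := lam i ^ (1 / (k : ℝ))

/-- the norm `(∑ lam_i |x_i|^k)^(1/k)` -/
def NN (k : ℕ) (lam : Fin d → ℝ) (x : Fin d → ℝ) : ℝ :=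
  (∑ i, |cc k lam i * x i| ^ (k : ℝ)) ^ (1 / (k : ℝ))

lemma NN_nonneg (k : ℕ) (lam : Fin d → ℝ) (x : Fin d → ℝ) : 0 ≤ NN k lam x := by
  unfold NN
  exact Real.rpow_nonneg (Finset.sum_nonneg fun i _ => Real.rpow_nonneg (abs_nonneg _) _) _

lemma NN_add {k : ℕ} (hk : 1 ≤ k) (lam : Fin d → ℝ) (x y : Fin d → ℝ) :
    NN k lam (x + y) ≤ NN k lam x + NN k lam y := by
  have h := Real.Lp_add_le Finset.univ (fun i => cc k lam i * x i) (fun i => cc k lam i * y i)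
    (p := (k : ℝ)) (by exact_mod_cast hk)
  unfold NN
  simpa only [Pi.add_apply, mul_add] using h

lemma cc_pow {k : ℕ} (hk : 1 ≤ k) {lam : Fin d → ℝ} (hl : ∀ i, 0 < lam i) (i : Fin d) :
    cc k lam i ^ k = lam i := by
  unfold cc
  rw [← Real.rpow_natCast, ← Real.rpow_mul (hl i).le]
  have : (1 / (k : ℝ)) * k = 1 := by
    have : (k : ℝ) ≠ 0 := by positivity
    field_simp
  rw [this, Real.rpow_one]

lemma cc_pos {k : ℕ} {lam : Fin d → ℝ} (hl : ∀ i, 0 < lam i) (i : Fin d) : 0 < cc k lam i :=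
  Real.rpow_pos_of_pos (hl i) _

lemma NN_sum {k : ℕ} (hk : 1 ≤ k) {lam : Fin d → ℝ} (hl : ∀ i, 0 < lam i) (x : Fin d → ℝ) :
    ∑ i, |cc k lam i * x i| ^ (k : ℝ) = ∑ i, lam i * |x i| ^ k := by
  refine Finset.sum_congr rfl fun i _ => ?_
  rw [Real.rpow_natCast, abs_mul, mul_pow, abs_of_pos (cc_pos hl i), cc_pow hk hl]

lemma NN_le_iff {k : ℕ} (hk : 1 ≤ k) {lam : Fin d → ℝ} (hl : ∀ i, 0 < lam i) (x : Fin d → ℝ)
    {R : ℝ} (hR : 0 ≤ R) : NN k lam x ≤ R ↔ ∑ i, lam i * |x i| ^ k ≤ R ^ k := by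
  have hk0 : (0 : ℝ) < k := by exact_mod_cast hk
  unfold NN
  rw [NN_sum hk hl, one_div, Real.rpow_inv_le_iff_of_pos
    (Finset.sum_nonneg fun i _ => mul_nonneg (hl i).le (by positivity)) hR hk0, Real.rpow_natCast]

lemma vol_NN {k : ℕ} (hd : 1 ≤ d) (hk : 1 ≤ k) {lam : Fin d → ℝ} (hl : ∀ i, 0 < lam i)
    {R : ℝ} (hR : 0 ≤ R) :
    volume {x : Fin d → ℝ | NN k lam x ≤ R} = ENNReal.ofReal (Vol d k lam * R ^ d) := by
  have : Nonempty (Fin d) := ⟨⟨0, hd⟩⟩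
  have h1 := volume_sum_rpow_le (Fin d) (p := (k : ℝ)) (by exact_mod_cast hk) R
  set f : (Fin d → ℝ) →ₗ[ℝ] (Fin d → ℝ) := Matrix.toLin' (Matrix.diagonal (cc k lam)) with hf
  have hdet : LinearMap.det f = ∏ i, cc k lam i := by
    rw [hf, LinearMap.det_toLin', Matrix.det_diagonal]
  have hpos : 0 < ∏ i, cc k lam i := Finset.prod_pos fun i _ => cc_pos hl i
  have h2 := Measure.addHaar_preimage_linearMap (volume : Measure (Fin d → ℝ)) (f := f)
    (by rw [hdet]; exact hpos.ne') {x | (∑ i, |x i| ^ (k : ℝ)) ^ (1 / (k : ℝ)) ≤ R}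
  have h3 : f ⁻¹' {x | (∑ i, |x i| ^ (k : ℝ)) ^ (1 / (k : ℝ)) ≤ R} =
      {x : Fin d → ℝ | NN k lam x ≤ R} := by
    ext x
    simp only [Set.mem_preimage, Set.mem_ofPred_eq, NN]
    have : ∀ i, f x i = cc k lam i * x i := by
      intro i
      rw [hf, Matrix.toLin'_apply, Matrix.mulVec_diagonal]
    simp only [this]
  rw [h3, h1, hdet, Fintype.card_fin] at h2
  rw [h2, ← ENNReal.ofReal_pow hR, ← ENNReal.ofReal_mul (by positivity),
    ← ENNReal.ofReal_mul (by positivity)]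
  congr 1
  unfold Vol
  have h4 : |(∏ i, cc k lam i)⁻¹| = ∏ i, lam i ^ (-(1 / (k : ℝ))) := by
    rw [abs_of_pos (inv_pos.2 hpos), ← Finset.prod_inv_distrib]
    refine Finset.prod_congr rfl fun i _ => ?_
    unfold cc
    rw [Real.rpow_neg (hl i).le]
  rw [h4]
  ring

/-- the unit cube of a lattice point -/
def Qb (m : Fin d → ℤ) : Set (Fin d → ℝ) := Set.univ.pi fun i => Set.Ico (m i : ℝ) (m i + 1)

lemma mem_Qb (m : Fin d → ℤ) (x : Fin d → ℝ) : x ∈ Qb m ↔ ∀ i, ⌊x i⌋ = m i := by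
  unfold Qb
  simp only [Set.mem_pi, Set.mem_univ, forall_true_left, Set.mem_Ico, Int.floor_eq_iff]

lemma vol_Qb (m : Fin d → ℤ) : volume (Qb m) = 1 := by
  unfold Qb
  rw [Real.volume_pi_Ico]
  simp

lemma meas_Qb (m : Fin d → ℤ) : MeasurableSet (Qb m) := by
  unfold Qb
  exact MeasurableSet.univ_pi fun i => measurableSet_Ico

lemma disj_Qb (F : Finset (Fin d → ℤ)) : (F : Set (Fin d → ℤ)).PairwiseDisjoint Qb := by
  intro a _ b _ hab
  refine Set.disjoint_left.2 fun x hx hy => hab ?_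
  rw [mem_Qb] at hx hy
  funext i
  rw [← hx i, hy i]

lemma vol_union (F : Finset (Fin d → ℤ)) : volume (⋃ m ∈ F, Qb m) = F.card := by
  rw [measure_biUnion_finset (disj_Qb F) (fun m _ => meas_Qb m)]
  simp [vol_Qb]

lemma NN_diff {k : ℕ} (hk : 1 ≤ k) {lam : Fin d → ℝ} (hl : ∀ i, 0 < lam i) (u : Fin d → ℝ)
    (hu : ∀ i, |u i| ≤ 1) : NN k lam u ≤ NN k lam 1 := by
  rw [NN_le_iff hk hl _ (NN_nonneg _ _ _)]
  have h := (NN_le_iff hk hl (1 : Fin d → ℝ) (NN_nonneg k lam 1)).1 le_rfl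
  refine le_trans (Finset.sum_le_sum fun i _ => ?_) h
  refine mul_le_mul_of_nonneg_left ?_ (hl i).le
  refine pow_le_pow_left₀ (abs_nonneg _) ?_ _
  simpa using hu i

/-- the set of lattice points -/
def AA (k : ℕ) (lam : Fin d → ℝ) (y : ℕ) : Set (Fin d → ℤ) :=
  {m : Fin d → ℤ | ∑ i, fl (lam i) ((m i).natAbs ^ k) ≤ y}

lemma cast_natAbs (m : ℤ) (k : ℕ) : (((m.natAbs ^ k : ℕ)) : ℝ) = |(m : ℝ)| ^ k := by
  push_cast
  rw [Nat.cast_natAbs]
  push_cast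
  rfl

lemma AA_le {k : ℕ} (lam : Fin d → ℝ) (y : ℕ) (m : Fin d → ℤ)
    (hm : m ∈ AA k lam y) : ∑ i, lam i * |(m i : ℝ)| ^ k ≤ y + d := by
  have h1 : ∀ i, lam i * |(m i : ℝ)| ^ k ≤ (fl (lam i) ((m i).natAbs ^ k) : ℝ) + 1 := by
    intro i
    unfold fl
    rw [cast_natAbs]
    exact (Nat.lt_floor_add_one _).le
  have h2 : (∑ i, (fl (lam i) ((m i).natAbs ^ k) : ℝ)) ≤ y := by
    have : (∑ i, fl (lam i) ((m i).natAbs ^ k)) ≤ y := hm
    exact_mod_cast this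
  calc ∑ i, lam i * |(m i : ℝ)| ^ k
      ≤ ∑ i, ((fl (lam i) ((m i).natAbs ^ k) : ℝ) + 1) := Finset.sum_le_sum fun i _ => h1 i
    _ = (∑ i, (fl (lam i) ((m i).natAbs ^ k) : ℝ)) + d := by
        rw [Finset.sum_add_distrib]; simp
    _ ≤ y + d := by linarith

lemma mem_AA {k : ℕ} (lam : Fin d → ℝ) (hl : ∀ i, 0 < lam i) (y : ℕ) (m : Fin d → ℤ)
    (hm : ∑ i, lam i * |(m i : ℝ)| ^ k ≤ y) : m ∈ AA k lam y := by
  have h1 : ∀ i, (fl (lam i) ((m i).natAbs ^ k) : ℝ) ≤ lam i * |(m i : ℝ)| ^ k := by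
    intro i
    unfold fl
    rw [cast_natAbs]
    exact Nat.floor_le (mul_nonneg (hl i).le (by positivity))
  have h2 : ((∑ i, fl (lam i) ((m i).natAbs ^ k) : ℕ) : ℝ) ≤ y := by
    push_cast
    exact le_trans (Finset.sum_le_sum fun i _ => h1 i) hm
  exact_mod_cast h2

lemma root_pow {k : ℕ} (hk : 1 ≤ k) {t : ℝ} (ht : 0 ≤ t) : (t ^ (1 / (k : ℝ))) ^ k = t := by
  rw [← Real.rpow_natCast, ← Real.rpow_mul ht]
  have : (1 / (k : ℝ)) * k = 1 := by
    have : (k : ℝ) ≠ 0 := by positivity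
    field_simp
  rw [this, Real.rpow_one]

lemma Vol_nonneg {k : ℕ} {lam : Fin d → ℝ} (hl : ∀ i, 0 < lam i) : 0 ≤ Vol d k lam := by
  unfold Vol
  have : 0 ≤ ∏ i, lam i ^ (-(1 / (k : ℝ))) :=
    Finset.prod_nonneg fun i _ => Real.rpow_nonneg (hl i).le _
  have h9 : 0 < Real.Gamma (1 / k + 1) := Real.Gamma_pos_of_pos (by positivity)
  have h10 : 0 < Real.Gamma ((d : ℝ) / k + 1) := Real.Gamma_pos_of_pos (by positivity)
  positivity

lemma upper_fin {k : ℕ} (hd : 1 ≤ d) (hk : 1 ≤ k) {lam : Fin d → ℝ} (hl : ∀ i, 0 < lam i) (y : ℕ)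
    (F : Finset (Fin d → ℤ)) (hF : (F : Set (Fin d → ℤ)) ⊆ AA k lam y) :
    (F.card : ℝ) ≤ Vol d k lam * (((y : ℝ) + d) ^ (1 / (k : ℝ)) + NN k lam 1) ^ d := by
  set R : ℝ := ((y : ℝ) + d) ^ (1 / (k : ℝ)) + NN k lam 1 with hR
  have hR0 : 0 ≤ R := add_nonneg (by positivity) (NN_nonneg _ _ _)
  have h1 : (⋃ m ∈ F, Qb m) ⊆ {x : Fin d → ℝ | NN k lam x ≤ R} := by
    intro x hx
    simp only [Set.mem_iUnion] at hx
    obtain ⟨m, hm, hx⟩ := hx
    rw [mem_Qb] at hx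
    have h2 : NN k lam (fun i => (m i : ℝ)) ≤ ((y : ℝ) + d) ^ (1 / (k : ℝ)) := by
      rw [NN_le_iff hk hl _ (by positivity), root_pow hk (by positivity)]
      exact AA_le lam y m (hF hm)
    have h3 : NN k lam (fun i => x i - m i) ≤ NN k lam 1 := by
      refine NN_diff hk hl _ fun i => ?_
      rw [← hx i, Int.self_sub_floor, abs_of_nonneg (Int.fract_nonneg _)]
      exact (Int.fract_lt_one _).le
    have h4 := NN_add hk lam (fun i => (m i : ℝ)) (fun i => x i - m i)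
    have h5 : (fun i => (m i : ℝ)) + (fun i => x i - m i) = x := by
      funext i; simp
    rw [h5] at h4
    simp only [Set.mem_ofPred_eq]
    linarith
  have h6 := measure_mono (μ := volume) h1
  rw [vol_union, vol_NN hd hk hl hR0] at h6
  have h7 : ENNReal.ofReal (F.card : ℝ) ≤ ENNReal.ofReal (Vol d k lam * R ^ d) := by
    rwa [ENNReal.ofReal_natCast]
  exact (ENNReal.ofReal_le_ofReal_iff (mul_nonneg (Vol_nonneg hl) (by positivity))).1 h7

lemma AA_finite {k : ℕ} (hd : 1 ≤ d) (hk : 1 ≤ k) {lam : Fin d → ℝ} (hl : ∀ i, 0 < lam i) (y : ℕ) :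
    (AA k lam y).Finite := by
  by_contra hinf
  obtain ⟨n, hn⟩ := exists_nat_gt
    (Vol d k lam * (((y : ℝ) + d) ^ (1 / (k : ℝ)) + NN k lam 1) ^ d)
  obtain ⟨F, hF, hc⟩ := Set.Infinite.exists_subset_card_eq hinf n
  have := upper_fin hd hk hl y F hF
  rw [hc] at this
  linarith

lemma lower_fin {k : ℕ} (hd : 1 ≤ d) (hk : 1 ≤ k) {lam : Fin d → ℝ} (hl : ∀ i, 0 < lam i) (y : ℕ)
    {R : ℝ} (hR : 0 ≤ R) (hRy : R + NN k lam 1 ≤ (y : ℝ) ^ (1 / (k : ℝ))) :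
    Vol d k lam * R ^ d ≤ ((AA k lam y).ncard : ℝ) := by
  have hfin := AA_finite hd hk hl y
  have h1 : {x : Fin d → ℝ | NN k lam x ≤ R} ⊆ ⋃ m ∈ hfin.toFinset, Qb m := by
    intro x hx
    simp only [Set.mem_ofPred_eq] at hx
    simp only [Set.mem_iUnion]
    refine ⟨fun i => ⌊x i⌋, ?_, ?_⟩
    · rw [Set.Finite.mem_toFinset]
      refine mem_AA lam hl y _ ?_
      have h3 : NN k lam (fun i => (⌊x i⌋ : ℝ) - x i) ≤ NN k lam 1 := by
        refine NN_diff hk hl _ fun i => ?_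
        rw [abs_sub_comm, Int.self_sub_floor, abs_of_nonneg (Int.fract_nonneg _)]
        exact (Int.fract_lt_one _).le
      have h4 := NN_add hk lam x (fun i => (⌊x i⌋ : ℝ) - x i)
      have h5 : x + (fun i => (⌊x i⌋ : ℝ) - x i) = fun i => (⌊x i⌋ : ℝ) := by
        funext i; simp
      rw [h5] at h4
      have h6 : NN k lam (fun i => (⌊x i⌋ : ℝ)) ≤ (y : ℝ) ^ (1 / (k : ℝ)) := by linarith
      rw [NN_le_iff hk hl _ (by positivity), root_pow hk (by positivity)] at h6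
      exact h6
    · rw [mem_Qb]
      intro i
      rfl
  have h6 := measure_mono (μ := volume) h1
  rw [vol_union, vol_NN hd hk hl hR] at h6
  rw [← Set.ncard_eq_toFinset_card _ hfin] at h6
  have h7 : ENNReal.ofReal (Vol d k lam * R ^ d) ≤ ENNReal.ofReal ((AA k lam y).ncard : ℝ) := by
    rwa [ENNReal.ofReal_natCast]
  exact (ENNReal.ofReal_le_ofReal_iff (by positivity)).1 h7

/-- `(t + a)^d ≤ t^d + C t^(d-1)` for `t ≥ 1` -/
lemma pow_add_bound (d : ℕ) (a : ℝ) (ha : 0 ≤ a) : ∃ C : ℝ, 0 ≤ C ∧ ∀ t : ℝ, 1 ≤ t →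
    (t + a) ^ (d + 1) ≤ t ^ (d + 1) + C * t ^ d := by
  induction d with
  | zero =>
    refine ⟨a, ha, fun t _ => ?_⟩
    simp
  | succ n ih =>
    obtain ⟨C, hC, h⟩ := ih
    refine ⟨C + C * a + a, by positivity, fun t ht => ?_⟩
    have h1 := h t ht
    have ht0 : 0 ≤ t := by linarith
    have h2 : (t + a) ^ (n + 1 + 1) ≤ (t ^ (n + 1) + C * t ^ n) * (t + a) := by
      rw [pow_succ (t + a) (n + 1)]
      exact mul_le_mul_of_nonneg_right h1 (by linarith)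
    have h3 : t ^ n ≤ t ^ (n + 1) := pow_le_pow_right₀ ht (Nat.le_succ n)
    have h4 : (t ^ (n + 1) + C * t ^ n) * (t + a) =
        t ^ (n + 1 + 1) + (a + C) * t ^ (n + 1) + C * a * t ^ n := by ring
    have h5 : C * a * t ^ n ≤ C * a * t ^ (n + 1) := mul_le_mul_of_nonneg_left h3 (by positivity)
    calc (t + a) ^ (n + 1 + 1) ≤ _ := h2
      _ = t ^ (n + 1 + 1) + (a + C) * t ^ (n + 1) + C * a * t ^ n := h4
      _ ≤ t ^ (n + 1 + 1) + (a + C) * t ^ (n + 1) + C * a * t ^ (n + 1) := by linarith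
      _ = t ^ (n + 1 + 1) + (C + C * a + a) * t ^ (n + 1) := by ring

lemma pow_sub_bound (d : ℕ) (a : ℝ) (t : ℝ) (ht : 1 ≤ t) (hat : a ≤ t) :
    t ^ (d + 1) - (d + 1) * a * t ^ d ≤ (t - a) ^ (d + 1) := by
  have ht0 : 0 < t := by linarith
  have h := one_add_mul_le_pow (a := -(a / t)) (by
    have : a / t ≤ 1 := (div_le_one ht0).2 hat
    linarith) (d + 1)
  have h1 : (t - a) ^ (d + 1) = t ^ (d + 1) * (1 + -(a / t)) ^ (d + 1) := by
    rw [← mul_pow]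
    congr 1
    field_simp
    ring
  rw [h1]
  have h2 : t ^ (d + 1) - (d + 1) * a * t ^ d = t ^ (d + 1) * (1 + ((d + 1 : ℕ) : ℝ) * -(a / t)) := by
    push_cast
    field_simp
    ring
  rw [h2]
  exact mul_le_mul_of_nonneg_left h (by positivity)

theorem t_LAT : S_LAT := by
  intro d k lam hd hk hl
  have hk0 : (0 : ℝ) < k := by exact_mod_cast hk
  obtain ⟨e, rfl⟩ : ∃ e, d = e + 1 := ⟨d - 1, by omega⟩
  set ρ := NN k lam 1 with hρ
  have hρ0 : 0 ≤ ρ := NN_nonneg _ _ _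
  set V := Vol (e + 1) k lam with hV
  have hV0 : 0 ≤ V := Vol_nonneg hl
  set a : ℝ := ((e + 1 : ℕ) : ℝ) + ρ with ha
  have ha0 : 0 ≤ a := by positivity
  obtain ⟨C1, hC1, hb⟩ := pow_add_bound e a ha0
  refine ⟨V * C1 + V * ((e + 1) * ρ) + V * ρ, fun y hy => ?_⟩
  have hfin := AA_finite hd hk hl y
  refine ⟨hfin, ?_⟩
  set t : ℝ := (y : ℝ) ^ (1 / (k : ℝ)) with ht
  have hy1 : (1 : ℝ) ≤ y := by exact_mod_cast hy
  have hy0 : (0 : ℝ) ≤ y := by linarith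
  have ht1 : 1 ≤ t := Real.one_le_rpow hy1 (by positivity)
  have e1 : (y : ℝ) ^ (((e + 1 : ℕ) : ℝ) / k) = t ^ (e + 1) := by
    rw [ht, ← Real.rpow_natCast, ← Real.rpow_mul hy0]
    congr 1
    field_simp
  have e2 : (y : ℝ) ^ ((((e + 1 : ℕ) : ℝ) - 1) / k) = t ^ e := by
    rw [ht, ← Real.rpow_natCast, ← Real.rpow_mul hy0]
    congr 1
    push_cast
    field_simp
    ring
  rw [e1, e2]
  change |((AA k lam y).ncard : ℝ) - V * t ^ (e + 1)| ≤ _
  have hte : 0 ≤ t ^ e := by positivity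
  rw [abs_le]
  constructor
  · by_cases hc : ρ ≤ t
    · have h1 := lower_fin hd hk hl y (R := t - ρ) (by linarith) (by linarith)
      have h2 := pow_sub_bound e ρ t ht1 hc
      have h3 : V * (t ^ (e + 1) - (e + 1) * ρ * t ^ e) ≤ V * (t - ρ) ^ (e + 1) :=
        mul_le_mul_of_nonneg_left h2 hV0
      have h4 : 0 ≤ V * C1 * t ^ e := by positivity
      have h5 : 0 ≤ V * ρ * t ^ e := by positivity
      nlinarith
    · push Not at hc
      have h1 : (0 : ℝ) ≤ (AA k lam y).ncard := by positivity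
      have h2 : V * t ^ (e + 1) ≤ V * ρ * t ^ e := by
        rw [pow_succ, mul_assoc]
        refine mul_le_mul_of_nonneg_left ?_ hV0
        nlinarith
      have h4 : 0 ≤ V * C1 * t ^ e := by positivity
      have h5 : 0 ≤ V * ((e + 1) * ρ) * t ^ e := by positivity
      nlinarith
  · have h1 := upper_fin hd hk hl y hfin.toFinset (by simp)
    rw [← Set.ncard_eq_toFinset_card _ hfin] at h1
    have h2 : ((y : ℝ) + ((e + 1 : ℕ) : ℝ)) ^ (1 / (k : ℝ)) ≤ t + ((e + 1 : ℕ) : ℝ) := by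
      have hp1 : 1 / (k : ℝ) ≤ 1 := by
        rw [div_le_one hk0]; exact_mod_cast hk
      have h3 := Real.rpow_add_le_add_rpow (p := 1 / (k : ℝ)) hy0
        (b := ((e + 1 : ℕ) : ℝ)) (by positivity) (by positivity) hp1
      have h4 : ((e + 1 : ℕ) : ℝ) ^ (1 / (k : ℝ)) ≤ ((e + 1 : ℕ) : ℝ) ^ (1 : ℝ) :=
        Real.rpow_le_rpow_of_exponent_le (by push_cast; linarith [Nat.cast_nonneg (α := ℝ) e]) hp1
      rw [Real.rpow_one] at h4
      linarith
    have h5 : (((y : ℝ) + ((e + 1 : ℕ) : ℝ)) ^ (1 / (k : ℝ)) + NN k lam 1) ^ (e + 1) ≤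
        (t + a) ^ (e + 1) := by
      refine pow_le_pow_left₀ (add_nonneg (by positivity) (NN_nonneg _ _ _)) ?_ _
      linarith
    have h6 := hb t ht1
    have h7 : V * (((y : ℝ) + ((e + 1 : ℕ) : ℝ)) ^ (1 / (k : ℝ)) + NN k lam 1) ^ (e + 1) ≤
        V * (t ^ (e + 1) + C1 * t ^ e) := mul_le_mul_of_nonneg_left (h5.trans h6) hV0
    have h8 : 0 ≤ V * ρ * t ^ e := by positivity
    have h9 : 0 ≤ V * ((e + 1) * ρ) * t ^ e := by positivity
    nlinarith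

end

end Pool.Agent.Run7.h544.MW
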