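import Mathlib
import Pool.Agent.Run7.h757.MW.Stm3

/-!
# Piece AVG of project MW (helper757): averages of a sequence with a regular counting function
-/

open Finset MeasureTheory Filter Topology

namespace Pool.Agent.Run7.h544.MW

open Pool.Agent.Run7.h757.MW

noncomputable section

lemma sum_back (c : ℕ → ℝ) (a : ℕ) : ∀ H : ℕ, H ≤ a →
    ∑ j ∈ range H, c (a - j) = ∑ m ∈ range (a + 1), c m - ∑ m ∈ range (a - H + 1), c m := by
  intro H
  induction H with
  | zero => intro _; simp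
  | succ n ih =>
    intro h
    rw [Finset.sum_range_succ, ih (by omega)]
    have h1 : a - n + 1 = (a - (n + 1) + 1) + 1 := by omega
    have h2 : ∑ m ∈ range (a - n + 1), c m = ∑ m ∈ range (a - (n + 1) + 1), c m + c (a - n) := by
      rw [h1, Finset.sum_range_succ]
      congr 2
      omega
    rw [h2]
    ring

lemma mvt {D a b : ℝ} (hb : 0 < b) (hab : b < a) :
    ∃ ξ ∈ Set.Ioo b a, a ^ D - b ^ D = D * (a - b) * ξ ^ (D - 1) := by
  obtain ⟨ξ, hξ, h⟩ := exists_hasDerivAt_eq_slope (fun x : ℝ => x ^ D)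
    (fun x => D * x ^ (D - 1)) hab
    (by
      intro x hx
      exact (Real.continuousAt_rpow_const x D (Or.inl (by linarith [hx.1]))).continuousWithinAt)
    (by
      intro x hx
      exact Real.hasDerivAt_rpow_const (Or.inl (by linarith [hx.1])))
  refine ⟨ξ, hξ, ?_⟩
  have : a - b ≠ 0 := by linarith
  have h' : D * ξ ^ (D - 1) * (a - b) = a ^ D - b ^ D := by
    rw [h]; field_simp
  linarith

lemma near_one (p : ℝ) {η : ℝ} (hη : 0 < η) : ∃ δ : ℝ, 0 < δ ∧ δ ≤ 1 / 2 ∧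
    ∀ t : ℝ, |t - 1| ≤ δ → |t ^ p - 1| ≤ η := by
  have h : ContinuousAt (fun t : ℝ => t ^ p) 1 := Real.continuousAt_rpow_const 1 p (Or.inl one_ne_zero)
  rw [Metric.continuousAt_iff] at h
  obtain ⟨δ, hδ, h⟩ := h η hη
  refine ⟨min (δ / 2) (1 / 2), by positivity, min_le_right _ _, fun t ht => ?_⟩
  have h1 : dist t 1 < δ := by
    rw [Real.dist_eq]
    have := min_le_left (δ / 2) (1 / 2)
    linarith
  have h2 := h h1
  rw [Real.dist_eq, Real.one_rpow] at h2
  exact h2.le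

lemma tend_aux (B : ℕ) {r : ℝ} (hr : 0 < r) (hr1 : r < 1) (K : ℝ) :
    Tendsto (fun j : ℕ => K * (((j : ℝ) + 1) ^ B * r ^ j)) atTop (𝓝 0) := by
  have h := tendsto_pow_const_mul_const_pow_of_lt_one B hr.le hr1
  have h1 := (tendsto_add_atTop_iff_nat 1).2 h
  have h2 := h1.const_mul (K * r⁻¹)
  rw [mul_zero] at h2
  refine h2.congr fun j => ?_
  push_cast
  rw [pow_succ]
  field_simp

theorem t_AVG : S_AVG := by
  intro c V D κ C k B hV hD hκ hκD hk hB hc hF ε hε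
  have hD0 : 0 < D := by linarith
  have hC : 0 ≤ C := by
    have h := hF 1 le_rfl
    have h1 := (abs_nonneg _).trans h
    simpa using h1
  obtain ⟨δ, hδ, hδ2, hnear⟩ := near_one (D - 1) (η := ε / (2 * (V * D))) (by positivity)
  -- eventual conditions
  set r : ℝ := (2 : ℝ) ^ (-((k : ℝ) * κ)) with hr
  have hk0 : (0 : ℝ) < k := by exact_mod_cast hk
  have hr0 : 0 < r := by positivity
  have hr1 : r < 1 := by
    rw [hr]
    exact Real.rpow_lt_one_of_one_lt_of_neg (by norm_num) (by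
      have : 0 < (k : ℝ) * κ := by positivity
      linarith)
  set K : ℝ := 2 * C * (2 : ℝ) ^ (D - κ) * 2 ^ (k + 1) with hK
  have hK0 : 0 ≤ K := by positivity
  have ev1 : ∀ᶠ j : ℕ in atTop, K * (((j : ℝ) + 1) ^ B * r ^ j) < ε / 2 :=
    (tend_aux B hr0 hr1 K).eventually_lt_const (by positivity)
  have ev2 : ∀ᶠ j : ℕ in atTop, 1 * (((j : ℝ) + 1) ^ B * (1 / 2 : ℝ) ^ j) < 1 :=
    (tend_aux B (by norm_num) (by norm_num) 1).eventually_lt_const (by norm_num)
  have ev3 : ∀ᶠ j : ℕ in atTop, 1 / δ ≤ (j : ℝ) :=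
    tendsto_natCast_atTop_atTop.eventually_ge_atTop _
  filter_upwards [ev1, ev2, ev3] with j h1 h2 h3 M hM1 hM2
  set x : ℝ := (2 : ℝ) ^ (j * k) / ((j : ℝ) + 1) ^ B with hx
  set H : ℕ := ⌊x⌋₊ with hH
  have hj1 : (1 : ℝ) ≤ (j : ℝ) + 1 := by linarith [Nat.cast_nonneg (α := ℝ) j]
  have hjB : 0 < ((j : ℝ) + 1) ^ B := by positivity
  have hP : (0 : ℝ) < 2 ^ (j * k) := by positivity
  have hx1 : 1 ≤ x := by
    rw [hx, one_le_div hjB]
    have h4 : ((j : ℝ) + 1) ^ B ≤ 2 ^ j := by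
      rw [one_mul, one_div, inv_pow, ← div_eq_mul_inv, div_lt_one (by positivity)] at h2
      exact h2.le
    exact h4.trans (pow_le_pow_right₀ (by norm_num) (Nat.le_mul_of_pos_right j hk))
  have hHx : (H : ℝ) ≤ x := Nat.floor_le (by linarith)
  have hH1 : 1 ≤ H := by
    rw [hH]
    exact Nat.le_floor (by simpa using hx1)
  have hH1' : (1 : ℝ) ≤ H := by exact_mod_cast hH1
  have hH0 : (0 : ℝ) < H := by linarith
  have hxH : x ≤ 2 * H := by
    have := Nat.lt_floor_add_one x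
    rw [← hH] at this
    linarith
  have hM0 : (0 : ℝ) < M := hP.trans_le hM1
  have hxδ : x ≤ δ * M := by
    have h5 : 1 / δ ≤ ((j : ℝ) + 1) ^ B := by
      have : ((j : ℝ) + 1) ≤ ((j : ℝ) + 1) ^ B := le_self_pow₀ hj1 (by omega)
      linarith
    have h6 : x ≤ δ * 2 ^ (j * k) := by
      rw [hx, div_le_iff₀ hjB]
      have : 1 ≤ δ * ((j : ℝ) + 1) ^ B := by
        rwa [div_le_iff₀ hδ, mul_comm] at h5
      nlinarith
    exact h6.trans (mul_le_mul_of_nonneg_left hM1 hδ.le)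
  have hHδ : (H : ℝ) ≤ δ * M := hHx.trans hxδ
  have hHM2 : (H : ℝ) ≤ M / 2 := by nlinarith
  have hHM : H ≤ M := by
    have : (H : ℝ) ≤ M := by linarith
    exact_mod_cast this
  -- individual terms
  set E : ℝ := 2 * (C * (2 * (M : ℝ)) ^ (D - κ)) with hE
  have hterm : ∀ i ∈ range H, |∑ j' ∈ range H, c (M + i - j') - H * (V * D * (M : ℝ) ^ (D - 1))| ≤
      E + H * (ε / 2 * (M : ℝ) ^ (D - 1)) := by
    intro i hi
    have hiH : i < H := Finset.mem_range.1 hi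
    have hiH' : (i : ℝ) < H := by exact_mod_cast hiH
    have hi0 : (0 : ℝ) ≤ i := Nat.cast_nonneg i
    rw [sum_back c (M + i) H (by omega)]
    have hbcast : ((M + i - H : ℕ) : ℝ) = (M : ℝ) + i - H := by
      rw [Nat.cast_sub (by omega)]; push_cast; ring
    have hacast : ((M + i : ℕ) : ℝ) = (M : ℝ) + i := by push_cast; ring
    have hb0 : 0 < (M : ℝ) + i - H := by linarith
    have hb1 : 1 ≤ M + i - H := by
      have : (0 : ℝ) < ((M + i - H : ℕ) : ℝ) := by rw [hbcast]; exact hb0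
      exact_mod_cast this
    have ha1 : 1 ≤ M + i := by omega
    have hFa := hF (M + i) ha1
    have hFb := hF (M + i - H) hb1
    rw [hacast] at hFa
    rw [hbcast] at hFb
    have hDκ : 0 ≤ D - κ := by linarith
    have hba : ((M : ℝ) + i) ^ (D - κ) ≤ (2 * (M : ℝ)) ^ (D - κ) :=
      Real.rpow_le_rpow (by positivity) (by linarith) hDκ
    have hbb : ((M : ℝ) + i - H) ^ (D - κ) ≤ (2 * (M : ℝ)) ^ (D - κ) :=
      Real.rpow_le_rpow hb0.le (by linarith) hDκ
    have hFa' := hFa.trans (mul_le_mul_of_nonneg_left hba hC)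
    have hFb' := hFb.trans (mul_le_mul_of_nonneg_left hbb hC)
    obtain ⟨ξ, hξ, hmv⟩ := mvt (D := D) hb0 (show (M : ℝ) + i - H < (M : ℝ) + i by linarith)
    have hab : (M : ℝ) + i - ((M : ℝ) + i - H) = H := by ring
    rw [hab] at hmv
    have hξ0 : 0 < ξ := hb0.trans hξ.1
    have hξM : |ξ / M - 1| ≤ δ := by
      have h7 : ξ / M - 1 = (ξ - M) / M := by field_simp
      rw [h7, abs_div, abs_of_pos hM0, div_le_iff₀ hM0]
      refine le_trans ?_ hHδ
      rw [abs_le]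
      constructor
      · linarith [hξ.1]
      · linarith [hξ.2]
    have hn := hnear _ hξM
    have h8 : ξ ^ (D - 1) - (M : ℝ) ^ (D - 1) = ((ξ / M) ^ (D - 1) - 1) * (M : ℝ) ^ (D - 1) := by
      rw [Real.div_rpow hξ0.le hM0.le]
      have : (M : ℝ) ^ (D - 1) ≠ 0 := (Real.rpow_pos_of_pos hM0 _).ne'
      field_simp
    have hMp : 0 < (M : ℝ) ^ (D - 1) := Real.rpow_pos_of_pos hM0 _
    have h9 : |ξ ^ (D - 1) - (M : ℝ) ^ (D - 1)| ≤ ε / (2 * (V * D)) * (M : ℝ) ^ (D - 1) := by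
      rw [h8, abs_mul, abs_of_pos hMp]
      exact mul_le_mul_of_nonneg_right hn hMp.le
    have h10 : |V * (((M : ℝ) + i) ^ D - ((M : ℝ) + i - H) ^ D) -
        H * (V * D * (M : ℝ) ^ (D - 1))| ≤ H * (ε / 2 * (M : ℝ) ^ (D - 1)) := by
      rw [hmv]
      have h11 : V * (D * H * ξ ^ (D - 1)) - H * (V * D * (M : ℝ) ^ (D - 1)) =
          (H * (V * D)) * (ξ ^ (D - 1) - (M : ℝ) ^ (D - 1)) := by ring
      rw [h11, abs_mul, abs_of_pos (by positivity : 0 < (H : ℝ) * (V * D))]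
      refine (mul_le_mul_of_nonneg_left h9 (by positivity)).trans (le_of_eq ?_)
      field_simp
    rw [abs_le] at hFa' hFb' h10 ⊢
    constructor
    · linarith [hFa'.1, hFb'.2, h10.1]
    · linarith [hFa'.2, hFb'.1, h10.2]
  -- sum
  have hsum : |∑ i ∈ range H, ∑ j' ∈ range H, c (M + i - j') -
      H * (H * (V * D * (M : ℝ) ^ (D - 1)))| ≤ H * (E + H * (ε / 2 * (M : ℝ) ^ (D - 1))) := by
    have h12 : ∑ i ∈ range H, ∑ j' ∈ range H, c (M + i - j') -
        H * (H * (V * D * (M : ℝ) ^ (D - 1))) =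
        ∑ i ∈ range H, (∑ j' ∈ range H, c (M + i - j') - H * (V * D * (M : ℝ) ^ (D - 1))) := by
      rw [Finset.sum_sub_distrib]
      simp
    rw [h12]
    refine (Finset.abs_sum_le_sum_abs _ _).trans ((Finset.sum_le_sum hterm).trans ?_)
    rw [Finset.sum_const, Finset.card_range, nsmul_eq_mul]
  have hfin : 1 / (H : ℝ) ^ 2 * ∑ i ∈ range H, ∑ j' ∈ range H, c (M + i - j') -
      V * D * (M : ℝ) ^ (D - 1) = 1 / (H : ℝ) ^ 2 * (∑ i ∈ range H, ∑ j' ∈ range H, c (M + i - j') -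
      H * (H * (V * D * (M : ℝ) ^ (D - 1)))) := by
    field_simp
  rw [hfin, abs_mul, abs_of_pos (by positivity : 0 < 1 / (H : ℝ) ^ 2)]
  refine (mul_le_mul_of_nonneg_left hsum (by positivity)).trans ?_
  have h13 : 1 / (H : ℝ) ^ 2 * (H * (E + H * (ε / 2 * (M : ℝ) ^ (D - 1)))) =
      E / H + ε / 2 * (M : ℝ) ^ (D - 1) := by
    field_simp
  rw [h13]
  have hMp : 0 < (M : ℝ) ^ (D - 1) := Real.rpow_pos_of_pos hM0 _
  have h14 : E / H ≤ ε / 2 * (M : ℝ) ^ (D - 1) := by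
    have h15 : (2 * (M : ℝ)) ^ (D - κ) = 2 ^ (D - κ) * ((M : ℝ) ^ (D - 1) * (M * (M : ℝ) ^ (-κ))) := by
      rw [Real.mul_rpow (by norm_num) hM0.le]
      congr 1
      nth_rewrite 3 [← Real.rpow_one (M : ℝ)]
      rw [← Real.rpow_add hM0, ← Real.rpow_add hM0]
      congr 1
      ring
    have h16 : (M : ℝ) ^ (-κ) ≤ r ^ j := by
      have h17 : r ^ j = ((2 : ℝ) ^ (j * k)) ^ (-κ) := by
        rw [hr, ← Real.rpow_natCast, ← Real.rpow_mul (by norm_num), ← Real.rpow_natCast (2 : ℝ) (j * k),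
          ← Real.rpow_mul (by norm_num)]
        congr 1
        push_cast
        ring
      rw [h17]
      exact Real.rpow_le_rpow_of_nonpos hP hM1 (by linarith)
    have h18 : (M : ℝ) / H ≤ 2 ^ (k + 1) * ((j : ℝ) + 1) ^ B := by
      rw [div_le_iff₀ hH0]
      have h19 : (2 : ℝ) ^ (j * k) = x * ((j : ℝ) + 1) ^ B := by
        rw [hx]; field_simp
      calc (M : ℝ) ≤ 2 ^ k * 2 ^ (j * k) := hM2
        _ = 2 ^ k * (x * ((j : ℝ) + 1) ^ B) := by rw [h19]
        _ ≤ 2 ^ k * ((2 * H) * ((j : ℝ) + 1) ^ B) := by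
            refine mul_le_mul_of_nonneg_left ?_ (by positivity)
            exact mul_le_mul_of_nonneg_right hxH hjB.le
        _ = 2 ^ (k + 1) * ((j : ℝ) + 1) ^ B * H := by rw [pow_succ]; ring
    have h20 : E / H = (2 * C * 2 ^ (D - κ)) * ((M : ℝ) / H) * ((M : ℝ) ^ (-κ)) * (M : ℝ) ^ (D - 1) := by
      rw [hE, h15]
      field_simp
    rw [h20]
    refine mul_le_mul_of_nonneg_right ?_ hMp.le
    have h21 : (2 * C * 2 ^ (D - κ)) * ((M : ℝ) / H) * ((M : ℝ) ^ (-κ)) ≤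
        (2 * C * 2 ^ (D - κ)) * (2 ^ (k + 1) * ((j : ℝ) + 1) ^ B) * r ^ j := by
      have hMk : 0 ≤ (M : ℝ) ^ (-κ) := (Real.rpow_pos_of_pos hM0 _).le
      refine mul_le_mul (mul_le_mul_of_nonneg_left h18 (by positivity)) h16 hMk (by positivity)
    refine h21.trans ?_
    have h22 : (2 * C * 2 ^ (D - κ)) * (2 ^ (k + 1) * ((j : ℝ) + 1) ^ B) * r ^ j =
        K * (((j : ℝ) + 1) ^ B * r ^ j) := by rw [hK]; ring
    rw [h22]
    exact h1.le
  linarith

end

end Pool.Agent.Run7.h544.MW
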